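import Mathlib

/-!
# Project MT, algebra for TILT (helper76 for helper4, helper61)

Mathlib only. `EK K x` of `H4/MT/Stm.lean` is written out: `∑ j ∈ range (K + 1), x ^ j / (j.factorial : ℝ)`.
-/

set_option autoImplicit false

namespace Pool.Agent.H76.MT

open Finset Complex
open scoped ComplexConjugate

/-- (a) the sum of the coefficients -/
theorem sum_coef (K : ℕ) (x : ℝ) :
    x + ∑ i ∈ range K, x ^ i * ((i : ℝ) + 1 - x) ^ 2 / ((i + 1).factorial : ℝ) =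
      (∑ j ∈ range (K + 1), x ^ j / (j.factorial : ℝ)) + x ^ (K + 1) / (K.factorial : ℝ) -
        ((K : ℝ) + 1) * x ^ K / (K.factorial : ℝ) := by
  induction K with
  | zero => simp
  | succ K ih =>
    rw [sum_range_succ, ← add_assoc, ih, sum_range_succ _ (K + 1)]
    have h1 : ((K + 1).factorial : ℝ) = ((K : ℝ) + 1) * (K.factorial : ℝ) := by
      rw [Nat.factorial_succ]; push_cast; ring
    have h2 : (K.factorial : ℝ) ≠ 0 := by exact_mod_cast K.factorial_ne_zero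
    have h3 : (K : ℝ) + 1 ≠ 0 := by positivity
    rw [h1]
    push_cast
    field_simp
    ring

/-- the coefficients of `F * (P - V conj μ)`, as a polynomial in `P` -/
noncomputable def gc (K : ℕ) (μ : ℂ) (V : ℝ) (i : ℕ) : ℂ :=
  if i = 0 then -((V : ℂ) * conj μ)
  else if i ≤ K then μ ^ (i - 1) / ((i - 1).factorial : ℂ) - (V : ℂ) * conj μ * μ ^ i / (i.factorial : ℂ)
  else if i = K + 1 then μ ^ K / (K.factorial : ℂ) else 0

lemma gc_zero (K : ℕ) (μ : ℂ) (V : ℝ) : gc K μ V 0 = -((V : ℂ) * conj μ) := by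
  rw [gc, if_pos rfl]

lemma gc_mid {K i : ℕ} (μ : ℂ) (V : ℝ) (h : i < K) : gc K μ V (i + 1) =
    μ ^ i / (i.factorial : ℂ) - (V : ℂ) * conj μ * μ ^ (i + 1) / ((i + 1).factorial : ℂ) := by
  rw [gc, if_neg (by omega), if_pos (by omega), Nat.add_sub_cancel]

lemma gc_last (K : ℕ) (μ : ℂ) (V : ℝ) : gc K μ V (K + 1) = μ ^ K / (K.factorial : ℂ) := by
  rw [gc, if_neg (by omega), if_neg (by omega), if_pos rfl]

lemma gc_big {K i : ℕ} (μ : ℂ) (V : ℝ) (h : K + 1 < i) : gc K μ V i = 0 := by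
  rw [gc, if_neg (by omega), if_neg (by omega), if_neg (by omega)]

/-- the product as a polynomial in `P` -/
theorem fe_mul (K : ℕ) (μ P : ℂ) (V : ℝ) :
    (∑ j ∈ range (K + 1), (μ * P) ^ j / (j.factorial : ℂ)) * (P - (V : ℂ) * conj μ) =
      ∑ i ∈ range (K + 2), gc K μ V i * P ^ i := by
  have h1 : ∑ i ∈ range (K + 2), gc K μ V i * P ^ i =
      (∑ i ∈ range (K + 1), μ ^ i / (i.factorial : ℂ) * P ^ (i + 1)) -
        ∑ i ∈ range (K + 1), (V : ℂ) * conj μ * μ ^ i / (i.factorial : ℂ) * P ^ i := by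
    rw [sum_range_succ, sum_range_succ', sum_range_succ _ K,
      sum_range_succ' (fun i => (V : ℂ) * conj μ * μ ^ i / (i.factorial : ℂ) * P ^ i) K, gc_zero,
      gc_last]
    have h2 : ∑ i ∈ range K, gc K μ V (i + 1) * P ^ (i + 1) =
        ∑ i ∈ range K, μ ^ i / (i.factorial : ℂ) * P ^ (i + 1) -
          ∑ i ∈ range K, (V : ℂ) * conj μ * μ ^ (i + 1) / ((i + 1).factorial : ℂ) * P ^ (i + 1) := by
      rw [← sum_sub_distrib]
      refine sum_congr rfl fun i hi => ?_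
      rw [gc_mid μ V (mem_range.1 hi), sub_mul]
    rw [h2]
    simp only [Nat.factorial_zero, Nat.cast_one, pow_zero, mul_one, div_one]
    ring
  rw [h1, sum_mul, ← sum_sub_distrib]
  refine sum_congr rfl fun i _ => ?_
  rw [mul_pow, pow_succ]
  ring

lemma norm_mid {K i : ℕ} (μ : ℂ) {V : ℝ} (h : i < K) :
    ‖gc K μ V (i + 1)‖ ^ 2 * ((i + 1).factorial : ℝ) * V ^ (i + 1) =
      V * ((‖μ‖ ^ 2 * V) ^ i * ((i : ℝ) + 1 - ‖μ‖ ^ 2 * V) ^ 2 / ((i + 1).factorial : ℝ)) := by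
  have h2 : ((i + 1).factorial : ℝ) ≠ 0 := by exact_mod_cast (i + 1).factorial_ne_zero
  have h2' : (i.factorial : ℂ) ≠ 0 := by exact_mod_cast i.factorial_ne_zero
  have h3 : ((i : ℂ) + 1) ≠ 0 := by exact_mod_cast (Nat.succ_ne_zero i)
  have e1 : gc K μ V (i + 1) =
      μ ^ i / ((i + 1).factorial : ℂ) * (((i : ℝ) + 1 - ‖μ‖ ^ 2 * V : ℝ) : ℂ) := by
    rw [gc_mid μ V h]
    have e2 : (μ : ℂ) * conj μ = ((‖μ‖ ^ 2 : ℝ) : ℂ) := by
      rw [Complex.mul_conj, Complex.normSq_eq_norm_sq]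
    have h1 : ((i + 1).factorial : ℂ) = ((i : ℂ) + 1) * (i.factorial : ℂ) := by
      rw [Nat.factorial_succ]; push_cast; ring
    have e3 : (V : ℂ) * conj μ * μ ^ (i + 1) = μ ^ i * (((‖μ‖ ^ 2 : ℝ) : ℂ) * V) := by
      rw [← e2, pow_succ]; ring
    rw [e3, h1]
    push_cast
    field_simp
  rw [e1, norm_mul, norm_div, norm_pow, Complex.norm_natCast, Complex.norm_real, Real.norm_eq_abs,
    mul_pow, sq_abs, div_pow]
  rw [← pow_mul]
  field_simp
  ring

/-- (b) the norm form -/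
theorem norm_form (K : ℕ) (μ : ℂ) (V : ℝ) :
    ∑ i ∈ range (K + 2), ‖gc K μ V i‖ ^ 2 * (i.factorial : ℝ) * V ^ i =
      V * ((∑ j ∈ range (K + 1), (‖μ‖ ^ 2 * V) ^ j / (j.factorial : ℝ)) +
        (‖μ‖ ^ 2 * V) ^ (K + 1) / (K.factorial : ℝ)) := by
  have h0 : ‖gc K μ V 0‖ ^ 2 * ((0 : ℕ).factorial : ℝ) * V ^ 0 = V * (‖μ‖ ^ 2 * V) := by
    rw [gc_zero, norm_neg, norm_mul, Complex.norm_real, Real.norm_eq_abs, Complex.norm_conj, mul_pow,
      sq_abs, Nat.factorial_zero]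
    push_cast
    ring
  have hK : ‖gc K μ V (K + 1)‖ ^ 2 * ((K + 1).factorial : ℝ) * V ^ (K + 1) =
      V * (((K : ℝ) + 1) * (‖μ‖ ^ 2 * V) ^ K / (K.factorial : ℝ)) := by
    have h1 : ((K + 1).factorial : ℝ) = ((K : ℝ) + 1) * (K.factorial : ℝ) := by
      rw [Nat.factorial_succ]; push_cast; ring
    have h2 : (K.factorial : ℝ) ≠ 0 := by exact_mod_cast K.factorial_ne_zero
    rw [gc_last, norm_div, norm_pow, Complex.norm_natCast, h1, div_pow, ← pow_mul]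
    field_simp
    ring
  have hs : ∑ i ∈ range K, ‖gc K μ V (i + 1)‖ ^ 2 * ((i + 1).factorial : ℝ) * V ^ (i + 1) =
      V * ∑ i ∈ range K, (‖μ‖ ^ 2 * V) ^ i * ((i : ℝ) + 1 - ‖μ‖ ^ 2 * V) ^ 2 /
        ((i + 1).factorial : ℝ) := by
    rw [mul_sum]
    exact sum_congr rfl fun i hi => norm_mid μ (mem_range.1 hi)
  rw [sum_range_succ, sum_range_succ', hs, h0, hK]
  have := sum_coef K (‖μ‖ ^ 2 * V)
  linear_combination V * this

/-- the coefficients are bounded -/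
theorem gc_bound {K : ℕ} {μ : ℂ} {V R : ℝ} (hR : 0 ≤ R) (hμ : ‖μ‖ ≤ R) (hV0 : 0 ≤ V) (hV : V ≤ 3)
    (i : ℕ) : ‖gc K μ V i‖ ≤ 4 * (1 + R) ^ (K + 1) := by
  have h1 : (1 : ℝ) ≤ 1 + R := by linarith
  have hp : ∀ j ≤ K + 1, ‖μ‖ ^ j ≤ (1 + R) ^ (K + 1) := fun j hj =>
    (pow_le_pow_left₀ (norm_nonneg _) (hμ.trans (by linarith)) j).trans (pow_le_pow_right₀ h1 hj)
  have hP : (0 : ℝ) ≤ (1 + R) ^ (K + 1) := by positivity
  have hdiv : ∀ j : ℕ, ∀ z : ℂ, ‖z / (j.factorial : ℂ)‖ ≤ ‖z‖ := by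
    intro j z
    rw [norm_div, Complex.norm_natCast]
    exact div_le_self (norm_nonneg _) (by exact_mod_cast j.factorial_pos)
  rcases Nat.eq_zero_or_pos i with h0 | h0
  · subst h0
    rw [gc_zero, norm_neg, norm_mul, Complex.norm_real, Real.norm_eq_abs, abs_of_nonneg hV0,
      Complex.norm_conj]
    have h2 := hp 1 (by omega)
    rw [pow_one] at h2
    nlinarith [norm_nonneg μ]
  · obtain ⟨i, rfl⟩ : ∃ j, i = j + 1 := ⟨i - 1, by omega⟩
    rcases Nat.lt_or_ge i K with h | h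
    · rw [gc_mid μ V h]
      refine (norm_sub_le _ _).trans ?_
      have h2 : ‖μ ^ i / (i.factorial : ℂ)‖ ≤ (1 + R) ^ (K + 1) :=
        (hdiv _ _).trans (by rw [norm_pow]; exact hp i (by omega))
      have h3 : ‖(V : ℂ) * conj μ * μ ^ (i + 1) / ((i + 1).factorial : ℂ)‖ ≤ 3 * (1 + R) ^ (K + 1) := by
        refine (hdiv _ _).trans ?_
        rw [norm_mul, norm_mul, Complex.norm_real, Real.norm_eq_abs, abs_of_nonneg hV0,
          Complex.norm_conj, norm_pow, mul_assoc, ← pow_succ']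
        have h4 := hp (i + 1 + 1) (by omega)
        have h5 : (0 : ℝ) ≤ ‖μ‖ ^ (i + 1 + 1) := by positivity
        nlinarith
      linarith
    · rcases Nat.eq_or_lt_of_le h with h | h
      · subst h
        rw [gc_last]
        have h2 : ‖μ ^ K / (K.factorial : ℂ)‖ ≤ (1 + R) ^ (K + 1) :=
          (hdiv _ _).trans (by rw [norm_pow]; exact hp K (by omega))
        linarith
      · rw [gc_big μ V (by omega), norm_zero]
        positivity

end Pool.Agent.H76.MT
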